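import Pool.Agent.J4H78.GP.Stm
import Pool.Agent.N614.SP.LOW
import Pool.Agent.H38R2.CG.NB

/-!
# All but very few primes have many small split primes (job LOW of project GP)
-/

set_option autoImplicit false

open Filter Topology
open Pool.Agent.J4H78.GP (Spl)
open Pool.Agent.H38R2.CG (PP IsFund)

namespace Pool.Agent.J4H21.GP

/-- the discriminant of `ℚ(√p)` -/
def dd (p : ℕ) : ℕ := if p % 4 = 1 then p else 4 * p

lemma dd_fund {p : ℕ} (hp : p.Prime) : IsFund (dd p) := by
  unfold dd IsFund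
  have h2 := hp.two_le
  split_ifs with h
  · exact ⟨by omega, Or.inl ⟨h, hp.squarefree⟩⟩
  · refine ⟨by omega, Or.inr ⟨p, rfl, ?_, hp.squarefree⟩⟩
    rcases hp.eq_two_or_odd with h3 | h3
    · left; omega
    · right; omega

lemma dd_le (p : ℕ) : dd p ≤ 4 * p := by unfold dd; split_ifs <;> omega

lemma le_dd (p : ℕ) : p ≤ dd p := by unfold dd; split_ifs <;> omega

lemma dd_inj {p p' : ℕ} (hp : p.Prime) (hp' : p'.Prime) (h : dd p = dd p') : p = p' := by
  unfold dd at h
  split_ifs at h with h1 h2 h2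
  · exact h
  · exfalso
    rw [h] at h1
    omega
  · exfalso
    rw [← h] at h2
    omega
  · omega

open Classical in
lemma term_le {p q : ℕ} (hp : p.Prime) (hq : q.Prime) (hq2 : 2 < q) :
    1 + ((jacobiSym ((dd p : ℕ) : ℤ) q : ℤ) : ℝ) ≤
      2 * (if Spl p q then 1 else 0) + (if q = p then 1 else 0) := by
  haveI : Fact q.Prime := ⟨hq⟩
  rw [← jacobiSym.legendreSym.to_jacobiSym]
  by_cases hqp : q = p
  · have h1 : legendreSym q ((dd p : ℕ) : ℤ) = 0 := by
      rw [legendreSym.eq_zero_iff]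
      have : (p : ZMod q) = 0 := by rw [← hqp]; exact ZMod.natCast_self q
      unfold dd
      split_ifs
      · push_cast; exact this
      · push_cast; rw [this, mul_zero]
    rw [h1]
    simp only [hqp, if_true]
    split_ifs <;> norm_num
  · have hndvd : ¬ q ∣ 2 * p := by
      intro hd
      rcases (Nat.Prime.dvd_mul hq).mp hd with h | h
      · have := Nat.le_of_dvd (by norm_num) h
        omega
      · exact hqp ((Nat.prime_dvd_prime_iff_eq hq hp).mp h)
    by_cases hs : Spl p q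
    · have h1 : legendreSym q ((dd p : ℕ) : ℤ) ≤ 1 := by
        rcases jacobiSym.trichotomy ((dd p : ℕ) : ℤ) q with h | h | h <;>
          rw [jacobiSym.legendreSym.to_jacobiSym, h] <;> norm_num
      have h2 : ((legendreSym q ((dd p : ℕ) : ℤ) : ℤ) : ℝ) ≤ 1 := by exact_mod_cast h1
      simp only [hs, hqp, if_true, if_false]
      linarith
    · have hns : ¬ IsSquare ((p : ℕ) : ZMod q) := fun h => hs ⟨hq, hndvd, h⟩
      have h1 : legendreSym q ((dd p : ℕ) : ℤ) = -1 := by
        rw [legendreSym.eq_neg_one_iff]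
        intro h
        apply hns
        unfold dd at h
        split_ifs at h with h3
        · simpa using h
        · push_cast at h
          obtain ⟨r, hr⟩ := h
          have h20 : (2 : ZMod q) ≠ 0 := by
            intro h0
            have : ((2 : ℕ) : ZMod q) = 0 := by exact_mod_cast h0
            rw [ZMod.natCast_eq_zero_iff] at this
            have := Nat.le_of_dvd (by norm_num) this
            omega
          refine ⟨r / 2, ?_⟩
          field_simp
          rw [mul_comm, show (2 : ZMod q) ^ 2 = 4 by norm_num, hr]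
          ring
      rw [h1]
      simp only [hs, hqp, if_false]
      norm_num

open Classical in
lemma sum_le {p : ℕ} (hp : p.Prime) (Q : Finset ℕ) (hQ : ∀ q ∈ Q, q.Prime ∧ 2 < q) :
    ∑ q ∈ Q, (1 + ((jacobiSym ((dd p : ℕ) : ℤ) q : ℤ) : ℝ)) ≤
      2 * ({q ∈ (Q : Set ℕ) | Spl p q}.ncard : ℝ) + 1 := by
  have h1 : ∑ q ∈ Q, (1 + ((jacobiSym ((dd p : ℕ) : ℤ) q : ℤ) : ℝ)) ≤
      ∑ q ∈ Q, (2 * (if Spl p q then (1 : ℝ) else 0) + (if q = p then 1 else 0)) :=
    Finset.sum_le_sum fun q hq => term_le hp (hQ q hq).1 (hQ q hq).2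
  refine h1.trans ?_
  rw [Finset.sum_add_distrib, ← Finset.mul_sum, Finset.sum_ite_eq']
  have h2 : {q ∈ (Q : Set ℕ) | Spl p q}.ncard = (Q.filter (fun q => Spl p q)).card := by
    rw [← Set.ncard_coe_finset]
    congr 1
    ext q
    simp
  rw [h2, Finset.sum_boole]
  have h3 : (if p ∈ Q then (1 : ℝ) else 0) ≤ 1 := by split_ifs <;> norm_num
  linarith

open Classical in
/-- the counting part, for given parameters -/
lemma count_le {C : ℝ} {y : ℕ} {Q : Finset ℕ} {i x : ℕ} (hx1 : 1 ≤ x)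
    (hQ : ∀ q ∈ Q, q.Prime ∧ 2 < q) (hcard : 35 ≤ Q.card)
    (h : ∀ X : ℕ, (2 * X : ℝ) ≤ ((2 * y : ℝ)) ^ ((i : ℝ) / 2) →
      (((Finset.Ioc X (2 * X)).filter (fun D => IsFund D ∧
      ∑ p ∈ Q, (1 + ((jacobiSym (D : ℤ) p : ℤ) : ℝ)) < (Q.card : ℝ) / 20)).card : ℝ) ≤
      C * (i.factorial : ℝ) * (3 * y / Q.card) ^ i)
    (hx : (8 * x : ℝ) ≤ ((2 * y : ℝ)) ^ ((i : ℝ) / 2)) :
    (({p ∈ Finset.Icc 1 x | p.Prime ∧
      ((100 : ℝ) * ({q ∈ (Q : Set ℕ) | Spl p q}.ncard : ℝ) < Q.card)} : Finset ℕ).card : ℝ) ≤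
      ((Nat.log 2 (4 * x) + 1 : ℕ) : ℝ) * (C * (i.factorial : ℝ) * (3 * y / Q.card) ^ i) := by
  obtain ⟨E, hE⟩ : ∃ E : ℕ → Finset ℕ, E = fun j => (Finset.Ioc (2 ^ j) (2 * 2 ^ j)).filter
    (fun D => IsFund D ∧ ∑ p ∈ Q, (1 + ((jacobiSym (D : ℤ) p : ℤ) : ℝ)) < (Q.card : ℝ) / 20) :=
    ⟨_, rfl⟩
  have hEj : ∀ j ∈ Finset.range (Nat.log 2 (4 * x) + 1), ((E j).card : ℝ) ≤
      C * (i.factorial : ℝ) * (3 * y / Q.card) ^ i := by
    intro j hj
    rw [Finset.mem_range] at hj
    have hj' : j ≤ Nat.log 2 (4 * x) := by omega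
    have h1 := h (2 ^ j)
    have h2 : 2 ^ j ≤ 4 * x := Nat.pow_le_of_le_log (by omega) hj'
    have h3 : (2 * ((2 ^ j : ℕ) : ℝ)) ≤ ((2 * y : ℝ)) ^ ((i : ℝ) / 2) := by
      refine le_trans ?_ hx
      have : ((2 ^ j : ℕ) : ℝ) ≤ ((4 * x : ℕ) : ℝ) := by exact_mod_cast h2
      push_cast at this ⊢
      linarith
    have h4 := h1 h3
    rw [hE]
    refine le_trans (le_of_eq ?_) h4
    congr!
  -- the map
  have hmap : ({p ∈ Finset.Icc 1 x | p.Prime ∧
      ((100 : ℝ) * ({q ∈ (Q : Set ℕ) | Spl p q}.ncard : ℝ) < Q.card)} : Finset ℕ).card ≤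
      ((Finset.range (Nat.log 2 (4 * x) + 1)).biUnion E).card := by
    refine Finset.card_le_card_of_injOn dd ?_ ?_
    · intro p hp
      simp only [Finset.coe_filter, Finset.mem_Icc, Set.mem_ofPred_eq] at hp
      obtain ⟨⟨hp1, hpx⟩, hpp, hlt⟩ := hp
      have hd2 : 2 ≤ dd p := hpp.two_le.trans (le_dd p)
      have hd4 : dd p ≤ 4 * x := (dd_le p).trans (by omega)
      simp only [Finset.coe_biUnion, Set.mem_iUnion, Finset.coe_range, Set.mem_Iio, Finset.mem_coe]
      refine ⟨Nat.log 2 (dd p - 1), ?_, ?_⟩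
      · have := Nat.log_mono_right (b := 2) (show dd p - 1 ≤ 4 * x by omega)
        omega
      · rw [hE]
        simp only [Finset.mem_filter, Finset.mem_Ioc]
        have h5 : 2 ^ Nat.log 2 (dd p - 1) ≤ dd p - 1 := Nat.pow_log_le_self 2 (by omega)
        have h6 : dd p - 1 < 2 ^ (Nat.log 2 (dd p - 1) + 1) := Nat.lt_pow_succ_log_self (by norm_num) _
        rw [pow_succ] at h6
        refine ⟨⟨by omega, by omega⟩, dd_fund hpp, ?_⟩
        have h7 := sum_le hpp Q hQ
        have h8 : (35 : ℝ) ≤ Q.card := by exact_mod_cast hcard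
        linarith
    · intro p hp p' hp' h
      simp only [Finset.coe_filter, Finset.mem_Icc, Set.mem_ofPred_eq] at hp hp'
      exact dd_inj hp.2.1 hp'.2.1 h
  calc _ ≤ ((((Finset.range (Nat.log 2 (4 * x) + 1)).biUnion E).card : ℕ) : ℝ) := by
        exact_mod_cast hmap
    _ ≤ ((∑ j ∈ Finset.range (Nat.log 2 (4 * x) + 1), (E j).card : ℕ) : ℝ) := by
        exact_mod_cast Finset.card_biUnion_le
    _ = ∑ j ∈ Finset.range (Nat.log 2 (4 * x) + 1), ((E j).card : ℝ) := by push_cast; rfl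
    _ ≤ ∑ _j ∈ Finset.range (Nat.log 2 (4 * x) + 1),
        (C * (i.factorial : ℝ) * (3 * y / Q.card) ^ i) := Finset.sum_le_sum hEj
    _ = _ := by rw [Finset.sum_const, Finset.card_range, nsmul_eq_mul]

/-- the eventual inequalities for the parameters -/
lemma params {A : ℝ} (hA : 1 ≤ A) : ∀ᶠ L : ℝ in atTop,
    4 ≤ L ^ A ∧ 2 ≤ L ^ (A / 2) ∧ 3 ≤ L ∧ 2 ≤ Real.log L ∧ 4 * Real.log 8 ≤ L ∧
    6 * L / (A * Real.log L) ≤ L ∧ 1 ≤ L / (A * Real.log L) ∧
    10 / 3 * (A * Real.log L) ≤ Real.log L ^ 2 ∧ 2 * Real.log (Real.log L) ≤ Real.log L ∧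
    5 * L ≤ Real.exp (L / A) := by
  have hA0 : 0 < A := by linarith
  have hlog : Tendsto Real.log atTop atTop := Real.tendsto_log_atTop
  have h1 : Tendsto (fun L : ℝ => L ^ A) atTop atTop := tendsto_rpow_atTop hA0
  have h2 : Tendsto (fun L : ℝ => L ^ (A / 2)) atTop atTop := tendsto_rpow_atTop (by positivity)
  have h3 : ∀ᶠ L : ℝ in atTop, ‖Real.log L‖ ≤ (1 / A) * ‖L‖ :=
    (Real.isLittleO_log_id_atTop).bound (by positivity)
  have h4 : ∀ᶠ L : ℝ in atTop, ‖Real.log (Real.log L)‖ ≤ (1 / 2) * ‖Real.log L‖ :=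
    hlog.eventually ((Real.isLittleO_log_id_atTop).bound (by positivity))
  have h5 : ∀ᶠ L : ℝ in atTop, ‖L ^ (1 : ℝ)‖ ≤ (1 / 5) * ‖Real.exp (1 / A * L)‖ :=
    (isLittleO_rpow_exp_pos_mul_atTop 1 (by positivity)).bound (by positivity)
  filter_upwards [h1.eventually_ge_atTop 4, h2.eventually_ge_atTop 2, eventually_ge_atTop 3,
    hlog.eventually_ge_atTop 2, eventually_ge_atTop (4 * Real.log 8),
    hlog.eventually_ge_atTop (10 / 3 * A), h3, h4, h5, hlog.eventually_ge_atTop 6] with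
    L e1 e2 e3 e4 e5 e6 e7 e8 e9 e10
  have hL : 0 < L := by linarith
  have hl : 0 < Real.log L := by linarith
  rw [Real.norm_eq_abs, Real.norm_eq_abs, abs_of_pos hl, abs_of_pos hL] at e7
  rw [Real.norm_eq_abs, Real.norm_eq_abs, abs_of_pos hl] at e8
  rw [Real.rpow_one, Real.norm_eq_abs, Real.norm_eq_abs, abs_of_pos hL,
    abs_of_pos (Real.exp_pos _)] at e9
  have e8' := (le_abs_self _).trans e8
  refine ⟨e1, e2, e3, e4, e5, ?_, ?_, ?_, by linarith, ?_⟩
  · rw [div_le_iff₀ (by positivity)]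
    have : 6 ≤ A * Real.log L := by nlinarith
    nlinarith
  · rw [le_div_iff₀ (by positivity)]
    have : A * Real.log L ≤ A * (1 / A * L) := mul_le_mul_of_nonneg_left e7 hA0.le
    rw [← mul_assoc, mul_one_div_cancel hA0.ne', one_mul] at this
    linarith
  · nlinarith
  · have : 1 / A * L = L / A := by ring
    rw [this] at e9
    linarith

theorem t_LOW : Pool.Agent.J4H78.GP.S_LOW := by
  intro δ hδ
  obtain ⟨C₁, hC₁, y₁, hlow⟩ := Pool.Agent.N614.SP.t_LOW
  obtain ⟨y₂, hPP⟩ := Pool.Agent.H38R2.CG.NBh.part2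
  refine ⟨max 1 (14 / δ), le_max_left _ _, fun A hA => ?_⟩
  have hA1 : 1 ≤ A := (le_max_left _ _).trans hA
  have hA0 : 0 < A := by linarith
  have hAδ : 14 / A ≤ δ := by
    have := (le_max_right _ _).trans hA
    rw [div_le_iff₀ hδ] at this
    rw [div_le_iff₀ hA0]
    linarith
  -- the parameters
  have hlogN : Tendsto (fun x : ℕ => Real.log (x : ℝ)) atTop atTop :=
    Real.tendsto_log_atTop.comp tendsto_natCast_atTop_atTop
  have hyN : Tendsto (fun x : ℕ => (Real.log (x : ℝ)) ^ A / 2) atTop atTop :=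
    ((tendsto_rpow_atTop hA0).comp hlogN).atTop_div_const (by norm_num)
  have hyf : Tendsto (fun x : ℕ => ⌊(Real.log (x : ℝ)) ^ A / 2⌋₊) atTop atTop :=
    tendsto_nat_floor_atTop.comp hyN
  have hylog : ∀ᶠ y : ℕ in atTop, (35 : ℝ) ≤ (9 / 10 : ℝ) * y / Real.log y := by
    have h1 : ∀ᶠ z : ℝ in atTop, ‖Real.log z‖ ≤ (9 / 350 : ℝ) * ‖z‖ :=
      (Real.isLittleO_log_id_atTop).bound (by positivity)
    have h2 := tendsto_natCast_atTop_atTop (R := ℝ) |>.eventually h1
    filter_upwards [h2, eventually_ge_atTop 2] with y hy hy2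
    have hy2' : (2 : ℝ) ≤ y := by exact_mod_cast hy2
    have hl : 0 < Real.log y := Real.log_pos (by linarith)
    rw [Real.norm_eq_abs, Real.norm_eq_abs, abs_of_pos hl, abs_of_pos (by linarith)] at hy
    rw [le_div_iff₀ hl]
    linarith
  have hev := (hlogN.eventually (params hA1)).and ((hyf.eventually (eventually_ge_atTop
    (max (max y₁ y₂) 2))).and ((hyf.eventually hylog).and (eventually_ge_atTop 2)))
  obtain ⟨x₀, hx₀⟩ := eventually_atTop.mp hev
  refine ⟨max (40 / 9 * A) C₁, by positivity, max x₀ 2, le_max_right _ _, fun x hx => ?_⟩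
  obtain ⟨⟨e1, e2, e3, e4, e5, e6, e7, e8, e9, e10⟩, hy, hy35, hx2⟩ :=
    hx₀ x ((le_max_left _ _).trans hx)
  obtain ⟨L, hL⟩ : ∃ L : ℝ, L = Real.log (x : ℝ) := ⟨_, rfl⟩
  rw [← hL] at e1 e2 e3 e4 e5 e6 e7 e8 e9 e10 hy hy35 ⊢
  obtain ⟨y, hyy⟩ : ∃ y : ℕ, y = ⌊L ^ A / 2⌋₊ := ⟨_, rfl⟩
  rw [← hyy] at hy hy35
  have hy1 : y₁ ≤ y := (le_max_left _ _).trans ((le_max_left _ _).trans hy)
  have hy2 : y₂ ≤ y := (le_max_right _ _).trans ((le_max_left _ _).trans hy)
  have hy3 : 2 ≤ y := (le_max_right _ _).trans hy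
  have hL0 : 0 < L := by linarith
  have hLA : 0 < L ^ A := Real.rpow_pos_of_pos hL0 _
  have hyle : (y : ℝ) ≤ L ^ A / 2 := by rw [hyy]; exact Nat.floor_le (by positivity)
  have hyge : L ^ A / 4 ≤ y := by
    have := Nat.lt_floor_add_one (L ^ A / 2)
    rw [← hyy] at this
    linarith
  have hy3' : (2 : ℝ) ≤ y := by exact_mod_cast hy3
  have hlogy : 0 < Real.log y := Real.log_pos (by linarith)
  have hlogyle : Real.log y ≤ A * Real.log L := by
    rw [← Real.log_rpow hL0]
    exact Real.log_le_log (by linarith) (by linarith)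
  obtain ⟨hPP1, -⟩ := hPP y hy2
  have hQcard : (35 : ℝ) ≤ ((PP y).card : ℝ) := hy35.trans hPP1
  have hQpos : (0 : ℝ) < ((PP y).card : ℝ) := by linarith
  have hQmem : ∀ q ∈ PP y, q.Prime ∧ y < q ∧ q ≤ 2 * y := by
    intro q hq
    unfold Pool.Agent.H38R2.CG.PP at hq
    rw [Finset.mem_filter, Finset.mem_Ioc] at hq
    exact ⟨hq.2, hq.1⟩
  -- y ≤ (10/9) |Q| log y
  have hyQ : (y : ℝ) ≤ 10 / 9 * ((PP y).card : ℝ) * Real.log y := by
    rw [div_le_iff₀ hlogy] at hPP1
    linarith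
  refine ⟨PP y, ?_, ?_, ?_⟩
  · intro q hq
    obtain ⟨h1, h2, h3⟩ := hQmem q hq
    refine ⟨h1, ?_⟩
    have : (q : ℝ) ≤ 2 * y := by exact_mod_cast h3
    linarith
  · have hll : Real.log L ≤ Real.log (L + 2) := Real.log_le_log hL0 (by linarith)
    have h1 : L ^ A ≤ 40 / 9 * ((PP y).card : ℝ) * (A * Real.log L) := by
      have : (y : ℝ) ≤ 10 / 9 * ((PP y).card : ℝ) * (A * Real.log L) :=
        hyQ.trans (mul_le_mul_of_nonneg_left hlogyle (by positivity))
      linarith
    calc L ^ A ≤ 40 / 9 * ((PP y).card : ℝ) * (A * Real.log L) := h1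
      _ = 40 / 9 * A * ((PP y).card : ℝ) * Real.log L := by ring
      _ ≤ max (40 / 9 * A) C₁ * ((PP y).card : ℝ) * Real.log (L + 2) := by
          gcongr
          exact le_max_left _ _
  · -- the exceptional primes
    have hlog2y : A / 2 * Real.log L ≤ Real.log (2 * y) := by
      rw [← Real.log_rpow hL0]
      apply Real.log_le_log (Real.rpow_pos_of_pos hL0 _)
      have h1 : L ^ A = L ^ (A / 2) * L ^ (A / 2) := by
        rw [← Real.rpow_add hL0]; congr 1; ring
      have h2 : 0 < L ^ (A / 2) := Real.rpow_pos_of_pos hL0 _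
      nlinarith
    have hlL : 0 < Real.log L := by linarith
    have hlog2y0 : 0 < Real.log (2 * y) := lt_of_lt_of_le (by positivity) hlog2y
    obtain ⟨i, hi⟩ : ∃ i : ℕ, i = ⌈2 * Real.log (8 * x) / Real.log (2 * y)⌉₊ := ⟨_, rfl⟩
    have hx1 : (2 : ℝ) ≤ x := by exact_mod_cast hx2
    have hlog8x : Real.log (8 * x) = Real.log 8 + L := by
      rw [Real.log_mul (by norm_num) (by linarith), hL]
    have hlog8 : 0 < Real.log 8 := Real.log_pos (by norm_num)
    have hi1 : 1 ≤ i := by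
      rw [hi, Nat.one_le_ceil_iff, hlog8x]
      positivity
    have hile : (i : ℝ) ≤ 6 * L / (A * Real.log L) := by
      have h1 := Nat.ceil_lt_add_one (a := 2 * Real.log (8 * x) / Real.log (2 * y)) (by
        rw [hlog8x]; positivity)
      rw [← hi] at h1
      have h2 : 2 * Real.log (8 * x) / Real.log (2 * y) ≤ 5 * L / (A * Real.log L) := by
        rw [hlog8x]
        calc 2 * (Real.log 8 + L) / Real.log (2 * y) ≤ (5 / 2 * L) / (A / 2 * Real.log L) :=
              div_le_div₀ (by positivity) (by linarith) (by positivity) hlog2y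
          _ = 5 * L / (A * Real.log L) := by field_simp
      have h3 : 6 * L / (A * Real.log L) = 5 * L / (A * Real.log L) + L / (A * Real.log L) := by
        ring
      linarith
    have hiL : (i : ℝ) ≤ L := hile.trans e6
    have hcond : (8 * x : ℝ) ≤ ((2 * y : ℝ)) ^ ((i : ℝ) / 2) := by
      have h1 := Nat.le_ceil (2 * Real.log (8 * x) / Real.log (2 * y))
      rw [← hi, div_le_iff₀ hlog2y0] at h1
      rw [← Real.log_le_log_iff (by positivity) (Real.rpow_pos_of_pos (by positivity) _),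
        Real.log_rpow (by positivity)]
      linarith
    have hne : (PP y).Nonempty := by
      rw [← Finset.card_pos]
      exact_mod_cast hQpos
    have hmain := count_le (C := C₁) (y := y) (Q := PP y) (i := i) (x := x) (by omega)
      (fun q hq => ⟨(hQmem q hq).1, by have := (hQmem q hq).2.1; omega⟩)
      (by exact_mod_cast hQcard)
      (fun X hX => hlow y hy1 (PP y) (Finset.Subset.refl _) hne i hi1 X hX) hcond
    refine le_trans (le_trans (le_of_eq (by congr!)) hmain) ?_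
    -- the size of the bound
    have hb1 : ((Nat.log 2 (4 * x) + 1 : ℕ) : ℝ) ≤ Real.exp (L / A) := by
      have h1 : ((Nat.log 2 (4 * x) : ℕ) : ℝ) * Real.log 2 ≤ Real.log (4 * x) := by
        have h2 : 2 ^ Nat.log 2 (4 * x) ≤ 4 * x := Nat.pow_log_le_self 2 (by omega)
        have h3 : ((2 : ℝ) ^ Nat.log 2 (4 * x)) ≤ 4 * x := by exact_mod_cast h2
        rw [← Real.log_pow]
        exact Real.log_le_log (by positivity) h3
      have h4 : Real.log (4 * x) ≤ 2 * L := by
        rw [Real.log_mul (by norm_num) (by linarith), ← hL]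
        have : Real.log 4 ≤ Real.log 8 := Real.log_le_log (by norm_num) (by norm_num)
        linarith
      have h5 := Real.log_two_gt_d9
      have h6 : ((Nat.log 2 (4 * x) : ℕ) : ℝ) ≤ 4 * L := by
        have h0 : (0 : ℝ) ≤ ((Nat.log 2 (4 * x) : ℕ) : ℝ) := Nat.cast_nonneg _
        nlinarith
      push_cast
      linarith
    have hb2 : (i.factorial : ℝ) ≤ Real.exp (6 * L / A) := by
      have h1 : (i.factorial : ℝ) ≤ (i : ℝ) ^ i := by exact_mod_cast Nat.factorial_le_pow i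
      have h2 : (i : ℝ) ^ i ≤ L ^ i := pow_le_pow_left₀ (Nat.cast_nonneg _) hiL i
      have h3 : L ^ i = Real.exp (i * Real.log L) := by
        rw [Real.exp_nat_mul, Real.exp_log hL0]
      have h4 : (i : ℝ) * Real.log L ≤ 6 * L / A := by
        have := mul_le_mul_of_nonneg_right hile hlL.le
        refine this.trans (le_of_eq ?_)
        field_simp
      exact h1.trans (h2.trans (by rw [h3]; exact Real.exp_le_exp.mpr h4))
    have hb3 : ((3 * y / ((PP y).card : ℝ)) ^ i : ℝ) ≤ Real.exp (6 * L / A) := by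
      have h1 : 3 * (y : ℝ) / ((PP y).card : ℝ) ≤ Real.log L ^ 2 := by
        rw [div_le_iff₀ hQpos]
        have h2 : 3 * (y : ℝ) ≤ 10 / 3 * (A * Real.log L) * ((PP y).card : ℝ) := by
          have := hyQ.trans (mul_le_mul_of_nonneg_left hlogyle (by positivity))
          linarith
        exact h2.trans (mul_le_mul_of_nonneg_right e8 hQpos.le)
      have h3 : (3 * (y : ℝ) / ((PP y).card : ℝ)) ^ i ≤ (Real.log L ^ 2) ^ i :=
        pow_le_pow_left₀ (by positivity) h1 i
      have h4 : (Real.log L ^ 2) ^ i = Real.exp (i * (2 * Real.log (Real.log L))) := by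
        rw [Real.exp_nat_mul, two_mul, Real.exp_add, Real.exp_log hlL, sq]
      have h5 : (i : ℝ) * (2 * Real.log (Real.log L)) ≤ 6 * L / A := by
        have h6 : (i : ℝ) * (2 * Real.log (Real.log L)) ≤ i * Real.log L :=
          mul_le_mul_of_nonneg_left e9 (Nat.cast_nonneg _)
        have := mul_le_mul_of_nonneg_right hile hlL.le
        refine h6.trans (this.trans (le_of_eq ?_))
        field_simp
      exact h3.trans (by rw [h4]; exact Real.exp_le_exp.mpr h5)
    have hxe : (x : ℝ) ^ δ = Real.exp (δ * L) := by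
      rw [Real.rpow_def_of_pos (by linarith), ← hL, mul_comm]
    rw [hxe]
    have hexp : Real.exp (L / A) * (Real.exp (6 * L / A) * Real.exp (6 * L / A)) ≤
        Real.exp (δ * L) := by
      rw [← Real.exp_add, ← Real.exp_add, Real.exp_le_exp]
      have h1 : 14 / A * L ≤ δ * L := mul_le_mul_of_nonneg_right hAδ hL0.le
      have h2 : L / A + (6 * L / A + 6 * L / A) = 13 / A * L := by ring
      have h3 : 13 / A * L ≤ 14 / A * L := by
        apply mul_le_mul_of_nonneg_right _ hL0.le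
        exact div_le_div_of_nonneg_right (by norm_num) hA0.le
      linarith
    calc ((Nat.log 2 (4 * x) + 1 : ℕ) : ℝ) * (C₁ * (i.factorial : ℝ) *
          (3 * y / ((PP y).card : ℝ)) ^ i)
        ≤ Real.exp (L / A) * (C₁ * Real.exp (6 * L / A) * Real.exp (6 * L / A)) := by
          gcongr
      _ = C₁ * (Real.exp (L / A) * (Real.exp (6 * L / A) * Real.exp (6 * L / A))) := by ring
      _ ≤ C₁ * Real.exp (δ * L) := mul_le_mul_of_nonneg_left hexp hC₁.le
      _ ≤ _ := mul_le_mul_of_nonneg_right (le_max_right _ _) (Real.exp_pos _).le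

end Pool.Agent.J4H21.GP
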