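import Pool.Agent.J4H78.GP.Stm

/-!
# Characters of the class group (job CHR of project GP)
-/

set_option autoImplicit false

open NumberField

namespace Pool.Agent.J4H21.GP

open Classical in
/-- the extension of a character of the class group to the ideals -/
noncomputable def ext {K : Type} [Field K] [NumberField K] (χ : ClassGroup (𝓞 K) →* ℂˣ) :
    Ideal (𝓞 K) →*₀ ℂ where
  toFun 𝔞 := if h : 𝔞 = 0 then 0 else
    ((χ (ClassGroup.mk0 ⟨𝔞, mem_nonZeroDivisors_of_ne_zero h⟩) : ℂˣ) : ℂ)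
  map_zero' := by simp
  map_one' := by
    have h : (1 : Ideal (𝓞 K)) ≠ 0 := one_ne_zero
    rw [dif_neg h]
    have h1 : (⟨1, mem_nonZeroDivisors_of_ne_zero h⟩ : nonZeroDivisors (Ideal (𝓞 K))) = 1 := rfl
    rw [h1, map_one, map_one, Units.val_one]
  map_mul' 𝔞 𝔟 := by
    by_cases ha : 𝔞 = 0
    · simp [ha]
    · by_cases hb : 𝔟 = 0
      · simp [hb]
      · have hab : 𝔞 * 𝔟 ≠ 0 := mul_ne_zero ha hb
        rw [dif_neg ha, dif_neg hb, dif_neg hab]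
        have h1 : (⟨𝔞 * 𝔟, mem_nonZeroDivisors_of_ne_zero hab⟩ : nonZeroDivisors (Ideal (𝓞 K))) =
            ⟨𝔞, mem_nonZeroDivisors_of_ne_zero ha⟩ * ⟨𝔟, mem_nonZeroDivisors_of_ne_zero hb⟩ := rfl
        rw [h1, map_mul, map_mul, Units.val_mul]

lemma ext_apply {K : Type} [Field K] [NumberField K] (χ : ClassGroup (𝓞 K) →* ℂˣ)
    (𝔞 : nonZeroDivisors (Ideal (𝓞 K))) : ext χ (𝔞 : Ideal (𝓞 K)) = ((χ (ClassGroup.mk0 𝔞) : ℂˣ) : ℂ) := by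
  have h : (𝔞 : Ideal (𝓞 K)) ≠ 0 := nonZeroDivisors.coe_ne_zero 𝔞
  change (if h : (𝔞 : Ideal (𝓞 K)) = 0 then 0 else
    ((χ (ClassGroup.mk0 ⟨(𝔞 : Ideal (𝓞 K)), mem_nonZeroDivisors_of_ne_zero h⟩) : ℂˣ) : ℂ)) = _
  rw [dif_neg h]

theorem t_CHR (hODD : Pool.Agent.J4H78.GP.S_ODD) : Pool.Agent.J4H78.GP.S_CHR := by
  intro p B hp hG
  unfold Pool.Agent.J4H78.GP.Gen at hG
  push Not at hG
  obtain ⟨K, iF, iN, hK, hne⟩ := hG
  refine ⟨K, iF, iN, hK, ?_⟩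
  have hodd := hODD p K hp hK
  obtain ⟨H, hH⟩ : ∃ H : Subgroup (ClassGroup (𝓞 K)), H =
      Subgroup.closure {c : ClassGroup (𝓞 K) | ∃ 𝔮 : nonZeroDivisors (Ideal (𝓞 K)),
      (Ideal.absNorm (𝔮 : Ideal (𝓞 K))).Prime ∧ ((Ideal.absNorm (𝔮 : Ideal (𝓞 K)) : ℕ) : ℝ) ≤ B ∧
      ClassGroup.mk0 𝔮 = c} := ⟨_, rfl⟩
  rw [← hH] at hne
  obtain ⟨g, hg⟩ : ∃ g, g ∉ H := by
    by_contra hcon
    push Not at hcon
    exact hne ((Subgroup.eq_top_iff' H).mpr hcon)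
  have hg1 : (QuotientGroup.mk g : ClassGroup (𝓞 K) ⧸ H) ≠ 1 := by
    rw [Ne, QuotientGroup.eq_one_iff]
    exact hg
  have hfin : Finite (ClassGroup (𝓞 K) ⧸ H) := inferInstance
  obtain ⟨φ, hφ⟩ := CommGroup.exists_apply_ne_one_of_hasEnoughRootsOfUnity
    (ClassGroup (𝓞 K) ⧸ H) ℂ hg1
  obtain ⟨χ, hχ⟩ : ∃ χ : ClassGroup (𝓞 K) →* ℂˣ, χ = φ.comp (QuotientGroup.mk' H) := ⟨_, rfl⟩
  have hχH : ∀ c ∈ H, χ c = 1 := by
    intro c hc
    rw [hχ, MonoidHom.comp_apply, QuotientGroup.mk'_apply, (QuotientGroup.eq_one_iff c).mpr hc,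
      map_one]
  have hχg : χ g ≠ 1 := by rw [hχ]; exact hφ
  have hχg2 : χ g ^ 2 ≠ 1 := by
    intro h2
    apply hχg
    have h3 : χ g ^ Nat.card (ClassGroup (𝓞 K)) = 1 := by
      rw [← map_pow, pow_card_eq_one', map_one]
    obtain ⟨m, hm⟩ := hodd
    rw [hm, pow_add, pow_mul, h2, one_pow, one_mul, pow_one] at h3
    exact h3
  refine ⟨ext χ, ?_, ?_, ?_⟩
  · intro x hx
    have h0 : (Ideal.span {x} : Ideal (𝓞 K)) ≠ 0 := by
      rw [Ne, Ideal.zero_eq_bot, Ideal.span_singleton_eq_bot]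
      exact hx
    have h1 := ext_apply χ ⟨Ideal.span {x}, mem_nonZeroDivisors_of_ne_zero h0⟩
    have h2 : ClassGroup.mk0 (⟨Ideal.span {x}, mem_nonZeroDivisors_of_ne_zero h0⟩ :
        nonZeroDivisors (Ideal (𝓞 K))) = 1 := by
      rw [ClassGroup.mk0_eq_one_iff]
      exact ⟨⟨x, rfl⟩⟩
    rw [h2, map_one, Units.val_one] at h1
    exact h1
  · obtain ⟨𝔞, h𝔞⟩ := ClassGroup.mk0_surjective g
    refine ⟨(𝔞 : Ideal (𝓞 K)), nonZeroDivisors.coe_ne_zero 𝔞, ?_⟩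
    rw [ext_apply, h𝔞]
    intro h
    apply hχg2
    apply Units.ext
    rw [Units.val_pow_eq_pow_val, h, Units.val_one]
  · intro 𝔮 hq hqB
    have h0 : 𝔮 ≠ 0 := by
      intro h
      rw [h, map_zero] at hq
      exact Nat.not_prime_zero hq
    have h1 := ext_apply χ ⟨𝔮, mem_nonZeroDivisors_of_ne_zero h0⟩
    have h2 : χ (ClassGroup.mk0 ⟨𝔮, mem_nonZeroDivisors_of_ne_zero h0⟩) = 1 := by
      apply hχH
      rw [hH]
      exact Subgroup.subset_closure ⟨⟨𝔮, mem_nonZeroDivisors_of_ne_zero h0⟩, hq, hqB, rfl⟩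
    rw [h2, Units.val_one] at h1
    exact h1

end Pool.Agent.J4H21.GP
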