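import Pool.Agent.J4H21.GP.W

/-!
# Unfolding of the integral of the theta series (job UNF of project GP)
-/

set_option autoImplicit false
set_option linter.unusedSectionVars false
set_option maxHeartbeats 4000000

open NumberField Complex Filter Topology MeasureTheory Set
open NumberField.Units NumberField.Units.dirichletUnitTheorem
open Pool.Agent.Y773

namespace Pool.Agent.J4H21.GP

/-- unfolding over the integral translates -/
lemma unfold_Q {r : ℕ} (G : (Fin r → ℝ) → ℂ) (hG : Integrable G) :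
    HasSum (fun m : Fin r → ℤ => ∫ θ in {θ : Fin r → ℝ | ∀ i, ⌊θ i⌋ = 0}, G (θ + lp m))
      (∫ θ, G θ) := by
  classical
  set S : (Fin r → ℤ) → Set (Fin r → ℝ) := fun m => {p | ∀ i, ⌊p i⌋ = m i} with hS
  have hmeas : ∀ m, MeasurableSet (S m) := by
    intro m
    have : S m = ⋂ i, {p : Fin r → ℝ | ⌊p i⌋ = m i} := by
      ext p
      simp [hS]
    rw [this]
    refine MeasurableSet.iInter fun i => ?_
    have h1 : Measurable fun p : Fin r → ℝ => ⌊p i⌋ :=
      Int.measurable_floor.comp (measurable_pi_apply i)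
    exact h1 (measurableSet_singleton (m i))
  have hdisj : Pairwise (Function.onFun Disjoint S) := by
    intro m m' hmm
    rw [Function.onFun, Set.disjoint_left]
    intro p hp hp'
    exact hmm (funext fun i => (hp i).symm.trans (hp' i))
  have hun : ⋃ m, S m = univ := by
    ext p
    simp only [mem_iUnion, mem_univ, iff_true]
    exact ⟨fun i => ⌊p i⌋, fun i => rfl⟩
  have h1 := hasSum_integral_iUnion hmeas hdisj (f := G) (μ := volume)
    (by rw [hun]; exact hG.integrableOn)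
  rw [hun, setIntegral_univ] at h1
  refine h1.congr_fun ?_
  intro m
  have hmp := measurePreserving_add_left (volume : Measure (Fin r → ℝ)) (lp m : Fin r → ℝ)
  have hme := (Homeomorph.addLeft (lp m : Fin r → ℝ)).toMeasurableEquiv.measurableEmbedding
  have h2 := hmp.setIntegral_preimage_emb hme G (S m)
  rw [← h2]
  have h3 : (fun x : Fin r → ℝ => (lp m : Fin r → ℝ) + x) ⁻¹' (S m) =
      {p : Fin r → ℝ | ∀ i, ⌊p i⌋ = 0} := by
    ext p
    simp only [hS, mem_preimage, mem_ofPred_eq, Pi.add_apply, Pool.Agent.Y773.lp, Int.floor_intCast_add]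
    refine forall_congr' fun i => ?_
    constructor
    · intro h
      omega
    · intro h
      omega
  rw [h3]
  refine setIntegral_congr_fun (by rw [← h3]; exact hmp.measurable (hmeas m)) fun p _ => ?_
  change G (p + lp m) = G (lp m + p)
  rw [add_comm]

variable {K : Type} [Field K] [NumberField K] [IsTotallyReal K]

/-- coordinates on the cube -/
noncomputable def A0 (σ : Fin 4 ≃ InfinitePlace K) : (Fin (rank K) → ℝ) →ₗ[ℝ] (Fin 3 → ℝ) :=
  LinearMap.pi fun j => (LinearMap.proj (σ j.castSucc)) ∘ₗ (el K) ∘ₗ (LinearMap.inr ℝ ℝ _)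

lemma A0_apply (σ : Fin 4 ≃ InfinitePlace K) (θ : Fin (rank K) → ℝ) (j : Fin 3) :
    A0 σ θ j = el K (0, θ) (σ j.castSucc) := rfl

lemma sum_place (σ : Fin 4 ≃ InfinitePlace K) (f : InfinitePlace K → ℝ) :
    ∑ w, f w = f (σ (Fin.castSucc 0)) + f (σ (Fin.castSucc 1)) + f (σ (Fin.castSucc 2)) +
      f (σ (Fin.last 3)) := by
  rw [← σ.sum_comp, Fin.sum_univ_castSucc, Fin.sum_univ_three]

lemma A0_injective (σ : Fin 4 ≃ InfinitePlace K) : Function.Injective (A0 σ) := by
  rw [injective_iff_map_eq_zero]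
  intro θ hθ
  have h0 : ∀ j : Fin 3, el K (0, θ) (σ j.castSucc) = 0 := fun j => congrFun hθ j
  have h1 := sum_el K (0, θ)
  rw [sum_place σ] at h1
  simp only [h0, mul_zero, zero_add] at h1
  have h2 : el K ((0 : ℝ), θ) = 0 := by
    funext w
    obtain ⟨i, rfl⟩ := σ.surjective w
    refine Fin.lastCases ?_ (fun j => ?_) i
    · exact h1
    · exact h0 j
  have h3 := el_injective K (h2.trans (map_zero (el K)).symm)
  exact congrArg Prod.snd h3

lemma rank_eq (hn : Module.finrank ℚ K = 4) : rank K = 3 := by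
  have h := card_place (K := K)
  unfold rank
  omega

/-- the linear equivalence -/
noncomputable def AE (hn : Module.finrank ℚ K = 4) (σ : Fin 4 ≃ InfinitePlace K) :
    (Fin (rank K) → ℝ) ≃ₗ[ℝ] (Fin 3 → ℝ) :=
  LinearEquiv.ofInjectiveOfFinrankEq (A0 σ) (A0_injective σ) (by
    rw [Module.finrank_pi, Module.finrank_pi, Fintype.card_fin, Fintype.card_fin, rank_eq hn])

lemma AE_apply (hn : Module.finrank ℚ K = 4) (σ : Fin 4 ≃ InfinitePlace K)
    (θ : Fin (rank K) → ℝ) (j : Fin 3) : AE hn σ θ j = el K (0, θ) (σ j.castSucc) := rfl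

lemma el_split (τ : ℝ) (θ : Fin (rank K) → ℝ) (w : InfinitePlace K) :
    el K (τ, θ) w = τ + el K (0, θ) w := by
  simp only [el, LinearMap.coe_mk, AddHom.coe_mk, zero_add]

/-- the translation -/
noncomputable def aa (σ : Fin 4 ≃ InfinitePlace K) (b : InfinitePlace K → ℝ) (j : Fin 3) : ℝ :=
  2 * Real.log (b (σ j.castSucc)) - 1 / 2 * Real.log (∏ w, b w)

lemma G0_eq (hn : Module.finrank ℚ K = 4) (σ : Fin 4 ≃ InfinitePlace K) {b : InfinitePlace K → ℝ}
    (hb : ∀ w, 0 < b w) {t : ℝ} (ht : 0 < t) (θ : Fin (rank K) → ℝ) :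
    G0 (fun _ => 0) (fun w => Real.exp (el K ((2 / Module.finrank ℚ K) * Real.log t, θ) w / 2) *
      b w) = Ph ((∏ w, b w) * t) (AE hn σ θ + aa σ b) := by
  have hN : 0 < ∏ w, b w := Finset.prod_pos fun w _ => hb w
  obtain ⟨N, hNe⟩ : ∃ N : ℝ, N = ∏ w, b w := ⟨_, rfl⟩
  rw [← hNe] at hN ⊢
  -- the exponents
  obtain ⟨z, hz⟩ : ∃ z : InfinitePlace K → ℝ, z = fun w =>
    el K (0, θ) w + (2 * Real.log (b w) - 1 / 2 * Real.log N) := ⟨_, rfl⟩
  have hsum : ∑ w, z w = 0 := by
    rw [hz, Finset.sum_add_distrib, sum_el, Finset.sum_sub_distrib, ← Finset.mul_sum,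
      ← Real.log_prod (fun w _ => (hb w).ne'), ← hNe, Finset.sum_const, Finset.card_univ,
      card_place, hn]
    simp
    ring
  have hterm : ∀ w, (Real.exp (el K ((2 / Module.finrank ℚ K) * Real.log t, θ) w / 2) * b w) ^ 2 =
      (N * t) ^ (1 / 2 : ℝ) * Real.exp (z w) := by
    intro w
    rw [mul_pow, ← Real.exp_nat_mul, el_split, hn]
    have e1 : (N * t) ^ (1 / 2 : ℝ) = Real.exp (1 / 2 * (Real.log N + Real.log t)) := by
      rw [Real.rpow_def_of_pos (by positivity), Real.log_mul hN.ne' ht.ne']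
      congr 1
      ring
    have e2 : b w ^ 2 = Real.exp (2 * Real.log (b w)) := by
      rw [two_mul, Real.exp_add, Real.exp_log (hb w)]
      ring
    rw [e1, e2, ← Real.exp_add, ← Real.exp_add, hz]
    congr 1
    push_cast
    ring
  have hlast : z (σ (Fin.last 3)) = -(z (σ (Fin.castSucc 0)) + z (σ (Fin.castSucc 1)) +
      z (σ (Fin.castSucc 2))) := by
    rw [sum_place σ] at hsum
    linarith
  unfold G0 g0 Ph Sg
  simp only [pow_zero, one_mul]
  rw [← Real.exp_sum]
  congr 1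
  rw [← Finset.mul_sum]
  congr 1
  rw [Finset.sum_congr rfl fun w _ => hterm w, ← Finset.mul_sum]
  congr 1
  rw [sum_place σ, hlast]
  have hj : ∀ j : Fin 3, (AE hn σ θ + aa σ b) j = z (σ j.castSucc) := by
    intro j
    rw [Pi.add_apply, AE_apply, hz]
    unfold aa
    rw [← hNe]
  rw [hj 0, hj 1, hj 2]

/-- the integral over the whole space -/
lemma int_G0 (hn : Module.finrank ℚ K = 4) : ∃ c : ℝ, 0 < c ∧
    ∀ b : InfinitePlace K → ℝ, (∀ w, 0 < b w) → ∀ t : ℝ, 0 < t →
      Integrable (fun θ : Fin (rank K) → ℝ =>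
        Fx (fun _ => 0) 0 b ((2 / Module.finrank ℚ K) * Real.log t, θ)) ∧
      ∫ θ : Fin (rank K) → ℝ, Fx (fun _ => 0) 0 b ((2 / Module.finrank ℚ K) * Real.log t, θ) =
        c * ((Pool.Agent.J4H78.GP.W ((∏ w, b w) * t) : ℝ) : ℂ) := by
  have hcard : Fintype.card (InfinitePlace K) = 4 := by rw [card_place, hn]
  obtain ⟨σ⟩ : Nonempty (Fin 4 ≃ InfinitePlace K) :=
    ⟨(Fintype.equivFinOfCardEq hcard).symm⟩
  obtain ⟨c, hc, h1, -, h3⟩ := exists_vol_gen (volume : Measure (Fin (rank K) → ℝ))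
    (volume : Measure (Fin 3 → ℝ)) (AE hn σ)
  refine ⟨c, hc, fun b hb t ht => ?_⟩
  have hN : 0 < (∏ w, b w) * t := mul_pos (Finset.prod_pos fun w _ => hb w) ht
  have hF : (fun θ : Fin (rank K) → ℝ =>
      Fx (fun _ => 0) 0 b ((2 / Module.finrank ℚ K) * Real.log t, θ)) = fun θ =>
      (fun y : Fin 3 → ℝ => ((Ph ((∏ w, b w) * t) (y + aa σ b) : ℝ) : ℂ)) (AE hn σ θ) := by
    funext θ
    unfold Fx
    rw [G0_eq hn σ hb ht θ]
    simp
  rw [hF]
  have hi : Integrable (fun y : Fin 3 → ℝ => ((Ph ((∏ w, b w) * t) (y + aa σ b) : ℝ) : ℂ)) :=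
    ((integrable_Ph hN).comp_add_right (aa σ b)).ofReal
  refine ⟨h3 _ hi, ?_⟩
  refine (h1 (fun y : Fin 3 → ℝ => ((Ph ((∏ w, b w) * t) (y + aa σ b) : ℝ) : ℂ))).trans ?_
  rw [integral_add_right_eq_self (fun y : Fin 3 → ℝ => ((Ph ((∏ w, b w) * t) y : ℝ) : ℂ)),
    integral_complex_ofReal, W_eq]

lemma norm_Fx0 {b : InfinitePlace K → ℝ} (hb : ∀ w, 0 < b w) (p : PP K) :
    (‖Fx (fun _ => 0) 0 b p‖ : ℂ) = Fx (fun _ => 0) 0 b p := by
  have h := norm_Fx (fun _ => 0) 0 hb p
  simpa using h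

lemma measurableSet_cube (K : Type) [Field K] [NumberField K] : MeasurableSet (cube K) := by
  have : cube K = ⋂ i, {p : Fin (rank K) → ℝ | ⌊p i⌋ = 0} := by
    ext p
    simp [cube]
  rw [this]
  refine MeasurableSet.iInter fun i => ?_
  have h1 : Measurable fun p : Fin (rank K) → ℝ => ⌊p i⌋ :=
    Int.measurable_floor.comp (measurable_pi_apply i)
  exact h1 (measurableSet_singleton (0 : ℤ))

lemma prod_av' {x : 𝓞 K} (hx : x ≠ 0) :
    ∏ w, av x w = (Ideal.absNorm (Ideal.span {x}) : ℝ) := by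
  have h2 := InfinitePlace.prod_eq_abs_norm (x : K)
  simp only [IsTotallyReal.mult_eq, pow_one] at h2
  unfold av
  rw [h2, Ideal.absNorm_span_singleton, ← Algebra.coe_norm_int]
  rw [Nat.cast_natAbs]
  push_cast
  rfl

/-- the sum over the units -/
lemma unfold_J' {c : ℝ} {t : ℝ} (ht : 0 < t)
    (hint : ∀ b : InfinitePlace K → ℝ, (∀ w, 0 < b w) → ∀ t : ℝ, 0 < t →
      Integrable (fun θ : Fin (rank K) → ℝ =>
        Fx (fun _ => 0) 0 b ((2 / Module.finrank ℚ K) * Real.log t, θ)) ∧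
      ∫ θ : Fin (rank K) → ℝ, Fx (fun _ => 0) 0 b ((2 / Module.finrank ℚ K) * Real.log t, θ) =
        c * ((Pool.Agent.J4H78.GP.W ((∏ w, b w) * t) : ℝ) : ℂ)) (J : PIdl K) :
    HasSum (fun z : torsion K × (Fin (rank K) → ℤ) =>
      ∫ θ in cube K, Fx (fun _ => 0) 0 (av (xE K (J, z)).1)
        ((2 / Module.finrank ℚ K) * Real.log t, θ))
      ((Nat.card (torsion K) : ℂ) *
        (c * ((Pool.Agent.J4H78.GP.W ((Ideal.absNorm J.1 : ℝ) * t) : ℝ) : ℂ))) := by
  classical
  have : Fintype (torsion K) := Fintype.ofFinite _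
  have hpos := av_pos (gen_ne_zero J)
  obtain ⟨h1, h2⟩ := hint (av (gen J)) hpos t ht
  rw [prod_av' (gen_ne_zero J), span_gen] at h2
  have h3 := unfold_Q _ h1
  rw [h2] at h3
  set V : ℂ := c * ((Pool.Agent.J4H78.GP.W ((Ideal.absNorm J.1 : ℝ) * t) : ℝ) : ℂ) with hV
  have e1 : ∀ ζ m, (∫ θ in cube K, Fx (fun _ => 0) 0 (av (xE K (J, (ζ, m))).1)
        ((2 / Module.finrank ℚ K) * Real.log t, θ)) =
      ∫ θ in {θ : Fin (rank K) → ℝ | ∀ i, ⌊θ i⌋ = 0},
        Fx (fun _ => 0) 0 (av (gen J)) ((2 / Module.finrank ℚ K) * Real.log t, θ + lp m) := by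
    intro ζ m
    exact integral_congr_ae (Eventually.of_forall fun θ =>
      Fx_unit (fun _ => 0) 0 J ζ m ((2 / Module.finrank ℚ K) * Real.log t, θ))
  have h5 : Summable fun z : torsion K × (Fin (rank K) → ℤ) =>
      ∫ θ in cube K, Fx (fun _ => 0) 0 (av (xE K (J, z)).1)
        ((2 / Module.finrank ℚ K) * Real.log t, θ) := by
    refine Summable.of_norm ?_
    refine (summable_prod_of_nonneg (fun z => norm_nonneg _)).mpr ⟨fun ζ => ?_, Summable.of_finite⟩
    simp only [e1]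
    exact h3.summable.norm
  have h6 := h5.hasSum
  rw [h5.tsum_prod] at h6
  have h7 : ∀ ζ : torsion K, ∑' m : Fin (rank K) → ℤ,
      (∫ θ in cube K, Fx (fun _ => 0) 0 (av (xE K (J, (ζ, m))).1)
        ((2 / Module.finrank ℚ K) * Real.log t, θ)) = V := by
    intro ζ
    simp only [e1]
    exact h3.tsum_eq
  simp only [h7] at h6
  rw [tsum_fintype, Finset.sum_const, nsmul_eq_mul, Finset.card_univ,
    ← Nat.card_eq_fintype_card] at h6
  exact h6

theorem t_UNF : Pool.Agent.J4H78.GP.S_UNF := by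
  intro K _ _ _ hn
  classical
  obtain ⟨c, hc, hint⟩ := int_G0 (K := K) hn
  have htor : 0 < Nat.card (torsion K) := Nat.card_pos
  obtain ⟨CW, hCW, hWle⟩ := W_le (s := 2) (by norm_num)
  refine ⟨Nat.card (torsion K) * c, by positivity, fun Ψ B hB hu t ht => ?_⟩
  have hB0 : 0 ≤ B := (norm_nonneg _).trans (hB 0)
  have hWs : Summable fun J : PIdl K => Pool.Agent.J4H78.GP.W ((Ideal.absNorm J.1 : ℝ) * t) := by
    refine Summable.of_nonneg_of_le (fun J => W_nonneg _) (fun J => ?_)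
      ((summable_PIdl (K := K) (σ := 2) (by norm_num)).mul_left (CW * t ^ (-(2 : ℝ))))
    have hJ : 0 < (Ideal.absNorm J.1 : ℝ) := by
      have : Ideal.absNorm J.1 ≠ 0 := by
        rw [Ne, Ideal.absNorm_eq_zero_iff]
        exact J.2.1
      exact_mod_cast Nat.pos_of_ne_zero this
    refine (hWle _ (mul_pos hJ ht)).trans (le_of_eq ?_)
    rw [Real.mul_rpow hJ.le ht.le]
    ring
  have hsum1 : Summable fun J : PIdl K => Ψ (gen J) *
      ((Pool.Agent.J4H78.GP.W ((Ideal.absNorm J.1 : ℝ) * t) : ℝ) : ℂ) := by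
    refine Summable.of_norm_bounded (hWs.mul_left B) fun J => ?_
    rw [norm_mul, Complex.norm_real, Real.norm_eq_abs, abs_of_nonneg (W_nonneg _)]
    exact mul_le_mul_of_nonneg_right (hB _) (W_nonneg _)
  refine ⟨hsum1, ?_⟩
  -- remove the term at zero
  obtain ⟨Ψ', hΨ'⟩ : ∃ Ψ' : 𝓞 K → ℂ, Ψ' = fun x => if x = 0 then 0 else Ψ x := ⟨_, rfl⟩
  have hB' : ∀ x, ‖Ψ' x‖ ≤ B := by
    intro x
    rw [hΨ']
    by_cases hx : x = 0
    · simp only [hx, if_true, norm_zero]
      exact hB0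
    · simp only [hx, if_false]
      exact hB x
  have hsg : ∀ x : K, sg (fun _ : InfinitePlace K => 0) x = 1 := by
    intro x
    unfold sg
    simp
  have hnice : Nice (fun _ => 0) Ψ' := by
    refine ⟨fun w => Nat.zero_le _, ⟨B, hB'⟩, by rw [hΨ']; simp, fun u x => ?_⟩
    rw [hsg, one_mul, hΨ']
    by_cases hx : x = 0
    · simp [hx]
    · have h1 : (u : 𝓞 K) * x ≠ 0 := mul_ne_zero u.ne_zero hx
      simp only [h1, hx, if_false]
      exact hu u x
  obtain ⟨τ, hτ⟩ : ∃ τ : ℝ, τ = (2 / Module.finrank ℚ K) * Real.log t := ⟨_, rfl⟩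
  have hAA : ∀ J : PIdl K, AA (fun _ => 0) Ψ' J = Ψ (gen J) := by
    intro J
    unfold AA
    rw [hsg, mul_one, hΨ']
    simp only [gen_ne_zero J, if_false]
  -- the theta series
  have hth0 : ∀ y : InfinitePlace K → ℝ, th (fun _ => 0) Ψ y = Ψ 0 + th (fun _ => 0) Ψ' y := by
    intro y
    have hs1 := summable_th (K := K) (e := fun _ => 0) (fun w => Nat.zero_le _) hB
      (a := fun w => Real.exp (y w / 2)) (fun w => Real.exp_pos _)
    have hs2 := summable_th (K := K) (e := fun _ => 0) (fun w => Nat.zero_le _) hB'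
      (a := fun w => Real.exp (y w / 2)) (fun w => Real.exp_pos _)
    unfold th
    have h1 : (∑' x : 𝓞 K, Ψ x *
        ((G0 (fun _ => 0) (fun w => Real.exp (y w / 2) * rl w (x : K)) : ℝ) : ℂ)) -
        ∑' x : 𝓞 K, Ψ' x *
        ((G0 (fun _ => 0) (fun w => Real.exp (y w / 2) * rl w (x : K)) : ℝ) : ℂ) = Ψ 0 := by
      rw [← hs1.tsum_sub hs2, tsum_eq_single (0 : 𝓞 K)]
      · rw [hΨ']
        unfold G0 g0
        simp
      · intro x hx
        rw [hΨ']
        simp [hx]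
    linear_combination h1
  have hth1 : ∀ θ : Fin (rank K) → ℝ, th (fun _ => 0) Ψ' (el K (τ, θ)) =
      ∑' x : {x : 𝓞 K // x ≠ 0}, AA (fun _ => 0) Ψ' (toP x) * Fx (fun _ => 0) 0 (av x.1) (τ, θ) := by
    intro θ
    have h := th_eq hnice 0 (τ, θ)
    rw [← h]
    simp
  have hcount : Countable (𝓞 K) := (coE K).countable_iff.mpr inferInstance
  -- integrability
  have hi : ∀ x : {x : 𝓞 K // x ≠ 0},
      Integrable (fun θ => AA (fun _ => 0) Ψ' (toP x) * Fx (fun _ => 0) 0 (av x.1) (τ, θ))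
        (volume.restrict (cube K)) := by
    intro x
    have h := (hint (av x.1) (av_pos x.2) t ht).1
    rw [← hτ] at h
    exact (h.const_mul _).restrict
  set r : {x : 𝓞 K // x ≠ 0} → ℝ := fun x =>
    ∫ θ in cube K, ‖Fx (fun _ => 0) 0 (av x.1) (τ, θ)‖ with hr
  have hrc : ∀ x : {x : 𝓞 K // x ≠ 0}, ((r x : ℝ) : ℂ) =
      ∫ θ in cube K, Fx (fun _ => 0) 0 (av x.1) (τ, θ) := by
    intro x
    rw [hr, ← integral_complex_ofReal]
    refine integral_congr_ae (Eventually.of_forall fun p => ?_)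
    simp only
    rw [norm_Fx0 (av_pos x.2)]
  have hJ0 : ∀ J : PIdl K, HasSum (fun z : torsion K × (Fin (rank K) → ℤ) =>
      ∫ θ in cube K, Fx (fun _ => 0) 0 (av (xE K (J, z)).1) (τ, θ))
      ((Nat.card (torsion K) : ℂ) *
        (c * ((Pool.Agent.J4H78.GP.W ((Ideal.absNorm J.1 : ℝ) * t) : ℝ) : ℂ))) := by
    intro J
    have h := unfold_J' ht hint J
    rw [← hτ] at h
    exact h
  have hrJ : ∀ J : PIdl K, HasSum (fun z : torsion K × (Fin (rank K) → ℤ) => r (xE K (J, z)))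
      (Nat.card (torsion K) * (c * Pool.Agent.J4H78.GP.W ((Ideal.absNorm J.1 : ℝ) * t))) := by
    intro J
    have h2 := Complex.hasSum_re (hJ0 J)
    have h3 : ((Nat.card (torsion K) : ℂ) *
        (c * ((Pool.Agent.J4H78.GP.W ((Ideal.absNorm J.1 : ℝ) * t) : ℝ) : ℂ))).re =
        Nat.card (torsion K) * (c * Pool.Agent.J4H78.GP.W ((Ideal.absNorm J.1 : ℝ) * t)) := by
      rw [← Complex.ofReal_natCast, ← Complex.ofReal_mul, ← Complex.ofReal_mul, Complex.ofReal_re]
    rw [h3] at h2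
    refine h2.congr_fun fun z => ?_
    rw [← hrc, Complex.ofReal_re]
  have hr0 : ∀ x, 0 ≤ r x := fun x => integral_nonneg fun p => norm_nonneg _
  have hsum : Summable fun x : {x : 𝓞 K // x ≠ 0} =>
      ∫ θ in cube K, ‖AA (fun _ => 0) Ψ' (toP x) * Fx (fun _ => 0) 0 (av x.1) (τ, θ)‖ := by
    have h1 : ∀ x : {x : 𝓞 K // x ≠ 0},
        ∫ θ in cube K, ‖AA (fun _ => 0) Ψ' (toP x) * Fx (fun _ => 0) 0 (av x.1) (τ, θ)‖ =
        ‖AA (fun _ => 0) Ψ' (toP x)‖ * r x := by
      intro x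
      simp_rw [norm_mul]
      rw [integral_const_mul]
    simp_rw [h1]
    rw [← (xE K).summable_iff]
    refine (summable_prod_of_nonneg (fun z => mul_nonneg (norm_nonneg _) (hr0 _))).mpr ⟨?_, ?_⟩
    · intro J
      simp only [Function.comp_apply, toP_xE]
      exact (hrJ J).summable.mul_left _
    · have h2 : ∀ J : PIdl K, ∑' z : torsion K × (Fin (rank K) → ℤ),
          ((fun x : {x : 𝓞 K // x ≠ 0} => ‖AA (fun _ => 0) Ψ' (toP x)‖ * r x) ∘ (xE K)) (J, z) =
          ‖AA (fun _ => 0) Ψ' J‖ *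
            (Nat.card (torsion K) * (c * Pool.Agent.J4H78.GP.W ((Ideal.absNorm J.1 : ℝ) * t))) := by
        intro J
        simp only [Function.comp_apply, toP_xE]
        rw [tsum_mul_left, (hrJ J).tsum_eq]
      have h8 : Summable fun J : PIdl K => ‖AA (fun _ => 0) Ψ' J‖ *
            (Nat.card (torsion K) * (c * Pool.Agent.J4H78.GP.W ((Ideal.absNorm J.1 : ℝ) * t))) := by
        refine Summable.of_nonneg_of_le (fun J => ?_) (fun J => ?_)
          (((hWs.mul_left c).mul_left (Nat.card (torsion K) : ℝ)).mul_left B)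
        · have := W_nonneg ((Ideal.absNorm J.1 : ℝ) * t)
          positivity
        · have h9 := W_nonneg ((Ideal.absNorm J.1 : ℝ) * t)
          exact mul_le_mul_of_nonneg_right (norm_AA_le hB' J) (by positivity)
      exact h8.congr fun J => (h2 J).symm
  have h5 := hasSum_integral_of_summable_integral_norm hi hsum
  have h6 : Summable fun z : PIdl K × (torsion K × (Fin (rank K) → ℤ)) =>
      ∫ θ in cube K, AA (fun _ => 0) Ψ' (toP (xE K z)) *
        Fx (fun _ => 0) 0 (av (xE K z).1) (τ, θ) := (xE K).summable_iff.mpr h5.summable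
  -- the integral of the theta series
  have hmain : ∫ θ in cube K, th (fun _ => 0) Ψ' (el K (τ, θ)) =
      ((Nat.card (torsion K) * c : ℝ) : ℂ) * ∑' J : PIdl K, Ψ (gen J) *
        ((Pool.Agent.J4H78.GP.W ((Ideal.absNorm J.1 : ℝ) * t) : ℝ) : ℂ) := by
    simp_rw [hth1]
    rw [← h5.tsum_eq, ← (xE K).tsum_eq, h6.tsum_prod, ← tsum_mul_left]
    refine tsum_congr fun J => ?_
    simp only [toP_xE]
    have h7 : ∀ z : torsion K × (Fin (rank K) → ℤ),
        ∫ θ in cube K, AA (fun _ => 0) Ψ' J * Fx (fun _ => 0) 0 (av (xE K (J, z)).1) (τ, θ) =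
        AA (fun _ => 0) Ψ' J * ∫ θ in cube K, Fx (fun _ => 0) 0 (av (xE K (J, z)).1) (τ, θ) :=
      fun z => integral_const_mul _ _
    simp_rw [h7]
    rw [tsum_mul_left, (hJ0 J).tsum_eq, hAA]
    push_cast
    ring
  have hcubevol : volume (cube K) = 1 := by
    rw [measure_congr (cube_ae K), volume_cube]
  have hcont : Continuous fun θ : Fin (rank K) → ℝ => th (fun _ => 0) Ψ' (el K (τ, θ)) := by
    have h4 : Continuous (el K) := (el K).continuous_of_finiteDimensional
    exact ((continuous_th (fun w => Nat.zero_le _) hB').comp h4).comp (by fun_prop)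
  have hint' : Integrable (fun θ : Fin (rank K) → ℝ => th (fun _ => 0) Ψ' (el K (τ, θ)))
      (volume.restrict (cube K)) := by
    have h := integrable_tsum hi hsum (by
      simp_rw [← hth1]
      exact hcont.aestronglyMeasurable)
    simp_rw [← hth1] at h
    exact h
  unfold hf
  rw [← hτ]
  simp_rw [hth0]
  rw [integral_add (by
    have : IsFiniteMeasure (volume.restrict (cube K)) :=
      ⟨by rw [Measure.restrict_apply_univ, hcubevol]; exact ENNReal.one_lt_top⟩
    exact integrable_const _) hint', hmain, setIntegral_const, Measure.real, hcubevol]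
  simp

end Pool.Agent.J4H21.GP
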