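import Pool.Agent.J4H78.GP.Stm

/-!
# The weight function `W` (job W of project GP)
-/

set_option autoImplicit false

open Filter Topology MeasureTheory

namespace Pool.Agent.J4H21.GP

/-- the sum of the four exponentials -/
noncomputable def Sg (y : Fin 3 → ℝ) : ℝ :=
  Real.exp (y 0) + Real.exp (y 1) + Real.exp (y 2) + Real.exp (-(y 0 + y 1 + y 2))

/-- the integrand -/
noncomputable def Ph (u : ℝ) (y : Fin 3 → ℝ) : ℝ :=
  Real.exp (-Real.pi * (u ^ (1 / 2 : ℝ) * Sg y))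

lemma W_eq (u : ℝ) : Pool.Agent.J4H78.GP.W u = ∫ y : Fin 3 → ℝ, Ph u y := rfl

lemma Sg_pos (y : Fin 3 → ℝ) : 0 < Sg y := by unfold Sg; positivity

lemma continuous_Sg : Continuous Sg := by unfold Sg; fun_prop

lemma continuous_Ph (u : ℝ) : Continuous (Ph u) := by
  unfold Ph
  exact Real.continuous_exp.comp (continuous_const.mul (continuous_const.mul continuous_Sg))

lemma Ph_pos (u : ℝ) (y : Fin 3 → ℝ) : 0 < Ph u y := Real.exp_pos _

lemma Sg_ge (y : Fin 3 → ℝ) : Real.exp (‖y‖ / 3) ≤ Sg y := by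
  have h0 := Real.exp_pos (y 0)
  have h1 := Real.exp_pos (y 1)
  have h2 := Real.exp_pos (y 2)
  have h3 := Real.exp_pos (-(y 0 + y 1 + y 2))
  -- some coordinate attains the norm
  have hn0 : 0 ≤ ‖y‖ := norm_nonneg y
  have key : ‖y‖ / 3 ≤ y 0 ∨ ‖y‖ / 3 ≤ y 1 ∨ ‖y‖ / 3 ≤ y 2 ∨ ‖y‖ / 3 ≤ -(y 0 + y 1 + y 2) := by
    by_contra hcon
    push Not at hcon
    obtain ⟨a0, a1, a2, a3⟩ := hcon
    have hlt : ‖y‖ < ‖y‖ := by
      have hpos : 0 < ‖y‖ := by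
        rcases hn0.lt_or_eq with h | h
        · exact h
        · rw [← h] at a0 a1 a2 a3
          linarith
      refine (pi_norm_lt_iff hpos).mpr fun i => ?_
      rw [Real.norm_eq_abs, abs_lt]
      fin_cases i
      · simp only [Fin.zero_eta, Fin.isValue]
        constructor <;> linarith
      · simp only [Fin.mk_one, Fin.isValue]
        constructor <;> linarith
      · simp only [Fin.reduceFinMk, Fin.isValue]
        constructor <;> linarith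
    exact lt_irrefl _ hlt
  unfold Sg
  rcases key with h | h | h | h
  · have := Real.exp_le_exp.mpr h; linarith
  · have := Real.exp_le_exp.mpr h; linarith
  · have := Real.exp_le_exp.mpr h; linarith
  · have := Real.exp_le_exp.mpr h; linarith

/-- `z ^ a ≤ a ^ a exp z` -/
lemma rpow_le_exp {a z : ℝ} (ha : 0 < a) (hz : 0 < z) : z ^ a ≤ a ^ a * Real.exp z := by
  have h1 : z / a ≤ Real.exp (z / a) := by
    have := Real.add_one_le_exp (z / a)
    linarith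
  have h2 : (z / a) ^ a ≤ Real.exp (z / a) ^ a :=
    Real.rpow_le_rpow (by positivity) h1 ha.le
  rw [← Real.exp_mul, div_mul_cancel₀ _ ha.ne', Real.div_rpow hz.le ha.le, div_le_iff₀
    (Real.rpow_pos_of_pos ha _)] at h2
  linarith

lemma exp_neg_le {a z : ℝ} (ha : 0 < a) (hz : 0 < z) : Real.exp (-z) ≤ a ^ a * z ^ (-a) := by
  have h1 := rpow_le_exp ha hz
  have h2 : 0 < z ^ a := Real.rpow_pos_of_pos hz _
  rw [Real.rpow_neg hz.le, Real.exp_neg, ← div_eq_mul_inv, le_div_iff₀ h2,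
    inv_mul_le_iff₀ (Real.exp_pos _)]
  linarith

/-- the majorant -/
lemma Ph_le {s : ℝ} (hs : 0 < s) : ∃ C : ℝ, 0 < C ∧ ∀ u : ℝ, 0 < u → ∀ y : Fin 3 → ℝ,
    Ph u y ≤ C * u ^ (-s) * (1 + ‖y‖) ^ (-(4 : ℝ)) := by
  have hπ := Real.pi_pos
  obtain ⟨c, hc⟩ : ∃ c : ℝ, c = 2 * s / 3 := ⟨_, rfl⟩
  have hc0 : 0 < c := by rw [hc]; positivity
  refine ⟨(2 * s) ^ (2 * s) * Real.pi ^ (-(2 * s)) *
    (Real.exp c * (4 ^ (4 : ℝ) * c ^ (-(4 : ℝ)))), by positivity, fun u hu y => ?_⟩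
  have hS := Sg_pos y
  have hu2 : 0 < u ^ (1 / 2 : ℝ) := Real.rpow_pos_of_pos hu _
  have hz : 0 < Real.pi * (u ^ (1 / 2 : ℝ) * Sg y) := by positivity
  have h1 := exp_neg_le (a := 2 * s) (by linarith) hz
  have h2 : (Real.pi * (u ^ (1 / 2 : ℝ) * Sg y)) ^ (-(2 * s)) =
      Real.pi ^ (-(2 * s)) * (u ^ (-s) * Sg y ^ (-(2 * s))) := by
    rw [Real.mul_rpow hπ.le (by positivity), Real.mul_rpow hu2.le hS.le, ← Real.rpow_mul hu.le]
    congr 3
    ring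
  have h3 : Sg y ^ (-(2 * s)) ≤ Real.exp (-(c * ‖y‖)) := by
    have h4 : Real.exp (‖y‖ / 3) ^ (2 * s) ≤ Sg y ^ (2 * s) :=
      Real.rpow_le_rpow (Real.exp_pos _).le (Sg_ge y) (by linarith)
    rw [← Real.exp_mul] at h4
    have h5 : ‖y‖ / 3 * (2 * s) = c * ‖y‖ := by rw [hc]; ring
    rw [h5] at h4
    rw [Real.rpow_neg hS.le, Real.exp_neg]
    exact inv_anti₀ (Real.exp_pos _) h4
  have hy : 0 < 1 + ‖y‖ := by have := norm_nonneg y; linarith
  have h6 : Real.exp (-(c * ‖y‖)) ≤ Real.exp c * (4 ^ (4 : ℝ) * c ^ (-(4 : ℝ))) *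
      (1 + ‖y‖) ^ (-(4 : ℝ)) := by
    have h7 := exp_neg_le (a := 4) (z := c * (1 + ‖y‖)) (by norm_num) (by positivity)
    rw [Real.mul_rpow hc0.le hy.le] at h7
    have h8 : Real.exp (-(c * ‖y‖)) = Real.exp c * Real.exp (-(c * (1 + ‖y‖))) := by
      rw [← Real.exp_add]; congr 1; ring
    rw [h8, mul_assoc]
    refine mul_le_mul_of_nonneg_left ?_ (Real.exp_pos _).le
    linarith
  have e0 : Ph u y = Real.exp (-(Real.pi * (u ^ (1 / 2 : ℝ) * Sg y))) := by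
    unfold Ph; congr 1; ring
  rw [e0]
  refine h1.trans ?_
  rw [h2]
  have hus : 0 < u ^ (-s) := Real.rpow_pos_of_pos hu _
  calc (2 * s) ^ (2 * s) * (Real.pi ^ (-(2 * s)) * (u ^ (-s) * Sg y ^ (-(2 * s))))
      ≤ (2 * s) ^ (2 * s) * (Real.pi ^ (-(2 * s)) * (u ^ (-s) *
        (Real.exp c * (4 ^ (4 : ℝ) * c ^ (-(4 : ℝ))) * (1 + ‖y‖) ^ (-(4 : ℝ))))) := by
        gcongr
        exact h3.trans h6
    _ = _ := by ring

lemma integrable_maj : Integrable (fun y : Fin 3 → ℝ => (1 + ‖y‖) ^ (-(4 : ℝ))) := by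
  refine integrable_one_add_norm ?_
  rw [Module.finrank_pi]
  simp
  norm_num

lemma integrable_Ph {u : ℝ} (hu : 0 < u) : Integrable (Ph u) := by
  obtain ⟨C, hC, h⟩ := Ph_le (s := 1) one_pos
  refine Integrable.mono' (integrable_maj.const_mul (C * u ^ (-(1 : ℝ))))
    (continuous_Ph u).aestronglyMeasurable (Eventually.of_forall fun y => ?_)
  rw [Real.norm_eq_abs, abs_of_pos (Ph_pos u y)]
  exact h u hu y

theorem W_nonneg (u : ℝ) : 0 ≤ Pool.Agent.J4H78.GP.W u := by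
  rw [W_eq]
  exact integral_nonneg fun y => (Ph_pos u y).le

theorem W_le {s : ℝ} (hs : 0 < s) : ∃ C : ℝ, 0 < C ∧ ∀ u : ℝ, 0 < u →
    Pool.Agent.J4H78.GP.W u ≤ C * u ^ (-s) := by
  obtain ⟨C, hC, h⟩ := Ph_le hs
  have hI : 0 ≤ ∫ y : Fin 3 → ℝ, (1 + ‖y‖) ^ (-(4 : ℝ)) :=
    integral_nonneg fun y => by positivity
  refine ⟨C * ((∫ y : Fin 3 → ℝ, (1 + ‖y‖) ^ (-(4 : ℝ))) + 1), by positivity, fun u hu => ?_⟩
  have hus : 0 < u ^ (-s) := Real.rpow_pos_of_pos hu _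
  rw [W_eq]
  calc ∫ y : Fin 3 → ℝ, Ph u y ≤ ∫ y : Fin 3 → ℝ, C * u ^ (-s) * (1 + ‖y‖) ^ (-(4 : ℝ)) :=
        integral_mono (integrable_Ph hu) (integrable_maj.const_mul _) (fun y => h u hu y)
    _ = C * u ^ (-s) * ∫ y : Fin 3 → ℝ, (1 + ‖y‖) ^ (-(4 : ℝ)) := integral_const_mul _ _
    _ ≤ _ := by nlinarith [mul_pos hC hus]

theorem W_pos {u : ℝ} (hu : 0 < u) : 0 < Pool.Agent.J4H78.GP.W u := by
  rw [W_eq, integral_pos_iff_support_of_nonneg (fun y => (Ph_pos u y).le) (integrable_Ph hu)]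
  have : Function.support (Ph u) = Set.univ := by
    ext y
    simp only [Function.mem_support, Set.mem_univ, iff_true]
    exact (Ph_pos u y).ne'
  rw [this]
  exact NeZero.pos _

theorem W_anti {u v : ℝ} (hu : 0 < u) (huv : u ≤ v) :
    Pool.Agent.J4H78.GP.W v ≤ Pool.Agent.J4H78.GP.W u := by
  rw [W_eq, W_eq]
  refine integral_mono (integrable_Ph (hu.trans_le huv)) (integrable_Ph hu) fun y => ?_
  unfold Ph
  rw [Real.exp_le_exp]
  have h1 : u ^ (1 / 2 : ℝ) ≤ v ^ (1 / 2 : ℝ) := Real.rpow_le_rpow hu.le huv (by norm_num)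
  have h2 := mul_le_mul_of_nonneg_right h1 (Sg_pos y).le
  have h3 := mul_le_mul_of_nonneg_left h2 Real.pi_pos.le
  linarith

theorem t_W : Pool.Agent.J4H78.GP.S_W :=
  ⟨W_nonneg, fun _ hs => W_le hs, Pool.Agent.J4H78.GP.W 1, W_pos one_pos,
    fun _ hu hu1 => W_anti hu hu1⟩

end Pool.Agent.J4H21.GP
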